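import Pool.Agent.BisRh.Main
import Pool.Agent.BisRu.Main

/-!
# Approximately counting independent sets of nearly regular bipartite graphs
-/

set_option autoImplicit false

namespace Pool.Agent.Results.MP_29585b_lc.NearRegular

open Pool.Agent.BisTh Pool.Agent.BisRg Pool.Agent.BisRh Pool.Agent.BisRu

/-- The complexity of approximately counting independent sets of bipartite graphs with `n` vertices
on each side and all degrees between `d` and `d + s` is governed by `x = (s + 1) * n / d`. First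
part: a deterministic algorithm in time polynomial in the input, `t` and `w`, where `w ≥ 2 ^ k`,
`k ≥ x`. Second part: a deterministic approximation scheme for `x ≤ q * log n`. Third part: for
`s = a + b + r + 2`, `n = 2 * d + s` and `s ^ c ≤ n` the problem is as hard as for all bipartite
graphs `H` with sides of sizes `a` and `b`. Fourth part: the same for `s = 0`,
`n / d = 2 * a + b + 3` and `(n / d + r) ^ c ≤ n`. -/
theorem result :
    (Function.Injective encInput₂ ∧ Function.Injective encInput ∧ Function.Injective encBip ∧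
      Function.Injective encNat) ∧
    (∃ A : Bip × ℕ × ℕ → ℕ, Nonempty (Turing.TM2ComputableInPolyTime encInput₂ encNat A) ∧
      ∀ (G : Bip) (t w : ℕ), A (G, t, w) ≤ G.count ∧
        ∀ d s k : ℕ, 1 ≤ d → NearRegular G d s → (s + 1) * G.a ≤ d * k → 2 ^ k ≤ w →
          t * (G.count - A (G, t, w)) ≤ G.count) ∧
    (∀ q : ℕ, ∃ A : Bip × ℕ → ℕ, Nonempty (Turing.TM2ComputableInPolyTime encInput encNat A) ∧
      ∀ (G : Bip) (t d s : ℕ), NearRegular G d s → (s + 1) * G.a ≤ q * (d * Nat.log 2 G.a) →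
        A (G, t) ≤ G.count ∧ t * (G.count - A (G, t)) ≤ G.count) ∧
    (∀ c : ℕ, 1 ≤ c → ∃ ρ : Bip × ℕ → Bip × ℕ,
      Nonempty (Turing.TM2ComputableInPolyTime encInput encInput ρ) ∧
      ∀ (H : Bip) (r : ℕ), (∃ d : ℕ, NearRegular (ρ (H, r)).1 d (H.a + H.b + r + 2) ∧
          (ρ (H, r)).1.a = 2 * d + (H.a + H.b + r + 2)) ∧
        (H.a + H.b + r + 2) ^ c ≤ (ρ (H, r)).1.a ∧
        2 ^ (ρ (H, r)).2 * H.count ≤ (ρ (H, r)).1.count ∧
        2 ^ r * ((ρ (H, r)).1.count - 2 ^ (ρ (H, r)).2 * H.count) ≤ 2 ^ (ρ (H, r)).2) ∧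
    (∀ c : ℕ, 1 ≤ c → ∃ ρ : Bip × ℕ → Bip,
      Nonempty (Turing.TM2ComputableInPolyTime encInput encBip ρ) ∧
      ∀ (H : Bip) (r : ℕ), (∃ d : ℕ, NearRegular (ρ (H, r)) d 0 ∧
          (ρ (H, r)).a = (2 * H.a + H.b + 3) * d) ∧
        (2 * H.a + H.b + 3 + r) ^ c ≤ (ρ (H, r)).a ∧
        2 ^ r * ((ρ (H, r)).count - 2 ^ (ρ (H, r)).a * (H.count + 2 ^ H.a + 1)) ≤
          2 ^ (ρ (H, r)).a ∧
        2 ^ r * (2 ^ (ρ (H, r)).a * (H.count + 2 ^ H.a + 1) - (ρ (H, r)).count) ≤
          2 ^ (ρ (H, r)).a) :=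
  ⟨⟨encInput₂_injective, encInput_injective, encBip_injective, encNat_injective⟩,
    statement8, statement9, statement3x, statement4x⟩

end Pool.Agent.Results.MP_29585b_lc.NearRegular
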