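import Pool.Agent.BisRh.Main

/-!
# Approximately counting independent sets of regular bipartite graphs
-/

set_option autoImplicit false

namespace Pool.Agent.Results.MP_29585b_lc.RegularBipartite

open Pool.Agent.BisTh Pool.Agent.BisRg Pool.Agent.BisRh

/-- The complexity of approximately counting independent sets of a `d`-regular bipartite graph with
`n` vertices on each side is governed by `n / d`. First part: a deterministic approximation scheme
for `n ≤ q * d`. Second part: for `n = (2 * a + b + 3) * d` and `(n / d) ^ c ≤ n` the problem is as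
hard as for all bipartite graphs `H` with sides of sizes `a` and `b`. -/
theorem result :
    (Function.Injective encInput ∧ Function.Injective encBip ∧ Function.Injective encNat) ∧
    (∀ q : ℕ, ∃ A : Bip × ℕ → ℕ, Nonempty (Turing.TM2ComputableInPolyTime encInput encNat A) ∧
      ∀ (G : Bip) (t d : ℕ), NearRegular G d 0 → G.a ≤ q * d →
        A (G, t) ≤ G.count ∧ t * (G.count - A (G, t)) ≤ G.count) ∧
    (∀ c : ℕ, 1 ≤ c → ∃ ρ : Bip × ℕ → Bip,
      Nonempty (Turing.TM2ComputableInPolyTime encInput encBip ρ) ∧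
      ∀ (H : Bip) (s : ℕ), (∃ d : ℕ, NearRegular (ρ (H, s)) d 0 ∧
          (ρ (H, s)).a = (2 * H.a + H.b + 3) * d) ∧
        (2 * H.a + H.b + 3) ^ c ≤ (ρ (H, s)).a ∧
        2 ^ s * ((ρ (H, s)).count - 2 ^ (ρ (H, s)).a * (H.count + 2 ^ H.a + 1)) ≤
          2 ^ (ρ (H, s)).a ∧
        2 ^ s * (2 ^ (ρ (H, s)).a * (H.count + 2 ^ H.a + 1) - (ρ (H, s)).count) ≤
          2 ^ (ρ (H, s)).a) :=
  ⟨⟨encInput_injective, encBip_injective, encNat_injective⟩, fun q => by
      obtain ⟨A, h1, h2⟩ := statement2 q 0
      exact ⟨A, h1, fun G t d hG hq => h2 G t d 0 hG hq (Nat.zero_le _)⟩, statement4⟩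

end Pool.Agent.Results.MP_29585b_lc.RegularBipartite
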