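import Pool.Agent.BisRg.Main

/-!
# Approximately counting independent sets of bipartite graphs with a spread fractional matching
-/

set_option autoImplicit false

namespace Pool.Agent.Results.MP_29585b_lc.SpreadMatching

open Pool.Agent.BisTh Pool.Agent.BisRg

/-- A deterministic approximation algorithm for all bipartite graphs with a spread fractional
matching, in time polynomial in the input, `t` and `w`. -/
theorem result :
    (Function.Injective encInput₂ ∧ Function.Injective encNat) ∧
    (∃ A : Bip × ℕ × ℕ → ℕ, Nonempty (Turing.TM2ComputableInPolyTime encInput₂ encNat A) ∧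
      ∀ (G : Bip) (t w : ℕ), A (G, t, w) ≤ G.count ∧
        ∀ D c : ℕ, 1 ≤ D → SpreadMatching G D c → 2 ^ c ≤ w → Sub G.a (5 * G.b / D) ≤ w →
          Sub G.b (5 * G.a / D) ≤ w → t * (G.count - A (G, t, w)) ≤ G.count) :=
  ⟨⟨encInput₂_injective, encNat_injective⟩, statement1⟩

end Pool.Agent.Results.MP_29585b_lc.SpreadMatching
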